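import Pool.Agent.H.MP_f264ea_lc.A

set_option autoImplicit false

namespace Pool.Agent.Results.MP_f264ea_lc.Groups

open FirstOrder FirstOrder.Language Pool.Agent.H.MP_f264ea_lc

universe u

/-- function symbols of the signature of groups -/
inductive Sym : ℕ → Type
  | mul : Sym 2
  | inv : Sym 1
  | one : Sym 0

/-- the signature of groups -/
def grp : FirstOrder.Language.{0, 0} := { Functions := Sym, Relations := fun _ => Empty }

/-- the structure `M` is a residually finite group -/
def IsRFGroup (M : Type u) [grp.Structure M] : Prop :=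
  ∃ _ : Group M, (∀ x y : M, Structure.funMap (L := grp) Sym.mul ![x, y] = x * y) ∧
    (∀ x : M, Structure.funMap (L := grp) Sym.inv ![x] = x⁻¹) ∧
    (Structure.funMap (L := grp) Sym.one ![] = (1 : M)) ∧
    ∀ g : M, g ≠ 1 → ∃ N : Subgroup M, N.Normal ∧ N.FiniteIndex ∧ g ∉ N

lemma sep_iff (G : Type u) [Group G] : Sep (fun x y : G => x * y) (fun x y => x * y) ↔
    ∀ g : G, g ≠ 1 → ∃ N : Subgroup G, N.Normal ∧ N.FiniteIndex ∧ g ∉ N := by
  constructor
  · intro H g hg
    obtain ⟨n, α, -, χ, h1, h2, -⟩ := H g 1 hg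
    have c : ∀ a b c d, χ a = χ b → χ c = χ d → χ (a * c) = χ (b * d) := fun a b c d h h' => by
      rw [h2, h2, h, h']
    let N : Subgroup G :=
      { carrier := {x | χ x = χ 1}
        mul_mem' := fun {a b} ha hb => by simpa using c _ _ _ _ ha hb
        one_mem' := rfl
        inv_mem' := fun {a} ha => by simpa using (c a⁻¹ a⁻¹ _ _ rfl ha).symm }
    refine ⟨N, ⟨fun x hx a => ?_⟩, ?_, h1⟩
    · change χ _ = χ 1
      simpa using c _ _ a⁻¹ a⁻¹ (c a a _ _ rfl hx) rfl
    · have : Finite (G ⧸ N) := by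
        refine Finite.of_injective (fun q => χ q.out) fun p q h => ?_
        rw [← p.out_eq', ← q.out_eq', QuotientGroup.eq]
        change χ _ = χ 1
        simpa using (c p.out⁻¹ p.out⁻¹ _ _ rfl h).symm
      exact Subgroup.finiteIndex_of_finite_quotient
  · intro H g h hne
    obtain ⟨N, _, _, hN⟩ := H (g⁻¹ * h) (by rwa [Ne, inv_mul_eq_one])
    obtain ⟨n, ⟨e⟩⟩ := Finite.exists_equiv_fin (G ⧸ N)
    refine ⟨n, fun a b => e (e.symm a * e.symm b), fun a b => e (e.symm a * e.symm b),
      fun x => e x, fun h => hN (QuotientGroup.eq.1 (e.injective h)), ?_, ?_⟩ <;> simp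

/-- the group axioms -/
def ax : Fin 3 → grp.Term ℕ × grp.Term ℕ :=
  let m : grp.Term ℕ → grp.Term ℕ → grp.Term ℕ := Functions.apply₂ (L := grp) Sym.mul
  let e : grp.Term ℕ := Constants.term (L := grp) Sym.one
  ![(m (m (.var 0) (.var 1)) (.var 2), m (.var 0) (m (.var 1) (.var 2))),
    (m e (.var 0), .var 0), (m (Functions.apply₁ (L := grp) Sym.inv (.var 0)) (.var 0), e)]

theorem result : ∃ (V : Type) (φ : Fml grp V), φ.free = ∅ ∧
    ∀ (M : Type u) [grp.Structure M], (∀ v : V → M, φ.Sat v) ↔ IsRFGroup M := by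
  refine ⟨ℕ, close ax (sep Sym.mul Sym.mul), close_free _ _, fun M _ => ?_⟩
  rw [close_sat, sep_sat]
  have e1 : constantMap (L := grp) Sym.one = Structure.funMap (L := grp) (M := M) Sym.one ![] :=
    congrArg (Structure.funMap (L := grp) (M := M) Sym.one) (Subsingleton.elim _ _)
  simp only [ax, Fin.forall_fin_succ, Matrix.cons_val_zero, Matrix.cons_val_succ,
    Term.realize_functions_apply₂, Term.realize_functions_apply₁, Term.realize_constants,
    Term.realize_var, IsEmpty.forall_iff, and_true, forall_and, e1]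
  constructor
  · rintro ⟨h, h1, h2, h3⟩
    let _ : Mul M := ⟨fun x y => Structure.funMap (L := grp) Sym.mul ![x, y]⟩
    let _ : Inv M := ⟨fun x => Structure.funMap (L := grp) Sym.inv ![x]⟩
    let _ : One M := ⟨Structure.funMap (L := grp) Sym.one ![]⟩
    let G : Group M := Group.ofLeftAxioms
      (fun a b c => h1 fun i => match i with | 0 => a | 1 => b | _ => c)
      (fun a => h2 fun _ => a) fun a => h3 fun _ => a
    exact ⟨G, fun _ _ => rfl, fun _ => rfl, rfl, (sep_iff M).1 h⟩
  · rintro ⟨G, h1, h2, h3, h⟩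
    simp only [h1, h2, h3]
    exact ⟨(sep_iff M).2 h, fun _ => mul_assoc _ _ _, fun _ => one_mul _, fun _ => inv_mul_cancel _⟩

end Pool.Agent.Results.MP_f264ea_lc.Groups
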