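import Pool.Agent.H.MP_f264ea_lc.A

set_option autoImplicit false

namespace Pool.Agent.Results.MP_f264ea_lc.Rings

open FirstOrder FirstOrder.Language Pool.Agent.H.MP_f264ea_lc

universe u

/-- function symbols of the signature of rings without unit -/
inductive Sym : ℕ → Type
  | add : Sym 2
  | neg : Sym 1
  | mul : Sym 2
  | zero : Sym 0

/-- the signature of rings -/
def rng : FirstOrder.Language.{0, 0} := { Functions := Sym, Relations := fun _ => Empty }

/-- the structure `M` is a residually finite associative ring -/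
def IsRFRing (M : Type u) [rng.Structure M] : Prop :=
  ∃ _ : NonUnitalRing M, (∀ x y : M, Structure.funMap (L := rng) Sym.add ![x, y] = x + y) ∧
    (∀ x : M, Structure.funMap (L := rng) Sym.neg ![x] = -x) ∧
    (∀ x y : M, Structure.funMap (L := rng) Sym.mul ![x, y] = x * y) ∧
    (Structure.funMap (L := rng) Sym.zero ![] = (0 : M)) ∧
    ∀ a : M, a ≠ 0 → ∃ I : TwoSidedIdeal M, Finite I.ringCon.Quotient ∧ a ∉ I

lemma sep_iff (R : Type u) [NonUnitalRing R] : Sep (fun x y : R => x + y) (fun x y => x * y) ↔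
    ∀ a : R, a ≠ 0 → ∃ I : TwoSidedIdeal R, Finite I.ringCon.Quotient ∧ a ∉ I := by
  constructor
  · intro H g hg
    obtain ⟨n, α, μ, χ, h1, h2, h3⟩ := H g 0 hg
    let c : RingCon R :=
      { Setoid.ker χ with
        mul' := fun {a b c d} (h : χ a = χ b) (h' : χ c = χ d) => show χ _ = χ _ by
          rw [h3, h3, h, h']
        add' := fun {a b c d} (h : χ a = χ b) (h' : χ c = χ d) => show χ _ = χ _ by
          rw [h2, h2, h, h'] }
    exact ⟨⟨c⟩, Finite.of_injective _ (Setoid.kerLift_injective χ), h1⟩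
  · intro H g h hne
    obtain ⟨I, _, hI⟩ := H (g - h) (sub_ne_zero.2 hne)
    obtain ⟨n, ⟨e⟩⟩ := Finite.exists_equiv_fin I.ringCon.Quotient
    refine ⟨n, fun a b => e (e.symm a + e.symm b), fun a b => e (e.symm a * e.symm b),
      fun x => e x, fun h => hI ((I.rel_iff _ _).1 (I.ringCon.eq.1 (e.injective h))), ?_, ?_⟩ <;>
      simp

/-- the ring axioms -/
def ax : Fin 7 → rng.Term ℕ × rng.Term ℕ :=
  let a : rng.Term ℕ → rng.Term ℕ → rng.Term ℕ := Functions.apply₂ (L := rng) Sym.add
  let m : rng.Term ℕ → rng.Term ℕ → rng.Term ℕ := Functions.apply₂ (L := rng) Sym.mul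
  let e : rng.Term ℕ := Constants.term (L := rng) Sym.zero
  ![(a (a (.var 0) (.var 1)) (.var 2), a (.var 0) (a (.var 1) (.var 2))),
    (a e (.var 0), .var 0), (a (Functions.apply₁ (L := rng) Sym.neg (.var 0)) (.var 0), e),
    (a (.var 0) (.var 1), a (.var 1) (.var 0)),
    (m (m (.var 0) (.var 1)) (.var 2), m (.var 0) (m (.var 1) (.var 2))),
    (m (.var 0) (a (.var 1) (.var 2)), a (m (.var 0) (.var 1)) (m (.var 0) (.var 2))),
    (m (a (.var 0) (.var 1)) (.var 2), a (m (.var 0) (.var 2)) (m (.var 1) (.var 2)))]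

theorem result : ∃ (V : Type) (φ : Fml rng V), φ.free = ∅ ∧
    ∀ (M : Type u) [rng.Structure M], (∀ v : V → M, φ.Sat v) ↔ IsRFRing M := by
  refine ⟨ℕ, close ax (sep Sym.add Sym.mul), close_free _ _, fun M _ => ?_⟩
  rw [close_sat, sep_sat]
  have e1 : constantMap (L := rng) Sym.zero = Structure.funMap (L := rng) (M := M) Sym.zero ![] :=
    congrArg (Structure.funMap (L := rng) (M := M) Sym.zero) (Subsingleton.elim _ _)
  simp only [ax, Fin.forall_fin_succ, Matrix.cons_val_zero, Matrix.cons_val_succ,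
    Term.realize_functions_apply₂, Term.realize_functions_apply₁, Term.realize_constants,
    Term.realize_var, IsEmpty.forall_iff, and_true, forall_and, e1]
  constructor
  · rintro ⟨h, h1, h2, h3, h4, h5, h6, h7⟩
    let _ : Add M := ⟨fun x y => Structure.funMap (L := rng) Sym.add ![x, y]⟩
    let _ : Mul M := ⟨fun x y => Structure.funMap (L := rng) Sym.mul ![x, y]⟩
    let _ : Neg M := ⟨fun x => Structure.funMap (L := rng) Sym.neg ![x]⟩
    let _ : Zero M := ⟨Structure.funMap (L := rng) Sym.zero ![]⟩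
    let w : M → M → M → ℕ → M := fun a b c i => match i with | 0 => a | 1 => b | _ => c
    let G : AddGroup M := AddGroup.ofLeftAxioms (fun a b c => h1 (w a b c))
      (fun a => h2 fun _ => a) fun a => h3 fun _ => a
    have l : ∀ a b c : M, a * (b + c) = a * b + a * c := fun a b c => h6 (w a b c)
    have r : ∀ a b c : M, (a + b) * c = a * c + b * c := fun a b c => h7 (w a b c)
    let R : NonUnitalRing M :=
      { G with
        add_comm := fun a b => h4 (w a b b)
        left_distrib := l
        right_distrib := r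
        zero_mul := fun a => add_eq_left.1 ((r 0 0 a).symm.trans (by rw [add_zero]))
        mul_zero := fun a => add_eq_left.1 ((l a 0 0).symm.trans (by rw [add_zero]))
        mul_assoc := fun a b c => h5 (w a b c) }
    exact ⟨R, fun _ _ => rfl, fun _ => rfl, fun _ _ => rfl, rfl, (sep_iff M).1 h⟩
  · rintro ⟨G, h1, h2, h3, h4, h⟩
    simp only [h1, h2, h3, h4]
    exact ⟨(sep_iff M).2 h, fun _ => add_assoc _ _ _, fun _ => zero_add _, fun _ => neg_add_cancel _,
      fun _ => add_comm _ _, fun _ => mul_assoc _ _ _, fun _ => mul_add _ _ _,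
      fun _ => add_mul _ _ _⟩

end Pool.Agent.Results.MP_f264ea_lc.Rings
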